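import Mathlib

namespace Pool.Agent.Results.MP_716318_co.Small

/-- The Hamilton path `v 0, v 1, …, v (n-1)` is `(2,2)`-acceptable with respect to `F`: no two
vertex-disjoint edges `{v i, v (i+1)}`, `{v j, v (j+1)}` have union in `F`. -/
def Acceptable {n : ℕ} (F : Finset (Finset (Fin n))) (v : Equiv.Perm (Fin n)) : Prop :=
  ∀ (i j : ℕ) (hij : i + 1 < j) (hj : j + 1 < n),
    ({v ⟨i, by omega⟩, v ⟨i + 1, by omega⟩, v ⟨j, by omega⟩, v ⟨j + 1, hj⟩} : Finset (Fin n)) ∉ F

def Blocked (n : ℕ) : Prop :=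
  ∃ F : Finset (Finset (Fin n)), (∀ S ∈ F, S.card = 4) ∧ F.card < (n - 2).choose 2 ∧
    ∀ v : Equiv.Perm (Fin n), ¬ Acceptable F v

def w7 (a : Fin 7) : ℕ := if a = 0 then 0 else if a.val ≤ 3 then 1 else 5
def F7 : Finset (Finset (Fin 7)) := (Finset.univ.powersetCard 4).filter fun S => ∑ x ∈ S, w7 x = 12
def F6 : Finset (Finset (Fin 6)) := (Finset.univ.powersetCard 4).filter fun S => (0 : Fin 6) ∉ S

lemma mem4 {n : ℕ} (v : Equiv.Perm (Fin n)) {a b c d : Fin n} (h1 : a < b) (h2 : b < c) (h3 : c < d) :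
    ({v a, v b, v c, v d} : Finset (Fin n)).card = 4 ∧
    ∀ w : Fin n → ℕ, ∑ x ∈ ({v a, v b, v c, v d} : Finset (Fin n)), w x =
      w (v a) + (w (v b) + (w (v c) + w (v d))) := by
  have e1 : v a ∉ ({v b, v c, v d} : Finset (Fin n)) := by simp; omega
  have e2 : v b ∉ ({v c, v d} : Finset (Fin n)) := by simp; omega
  have e3 : v c ∉ ({v d} : Finset (Fin n)) := by simp; omega
  refine ⟨?_, fun w => ?_⟩
  · rw [Finset.card_insert_of_notMem e1, Finset.card_insert_of_notMem e2,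
      Finset.card_insert_of_notMem e3, Finset.card_singleton]
  · rw [Finset.sum_insert e1, Finset.sum_insert e2, Finset.sum_insert e3, Finset.sum_singleton]

lemma key7 : ∀ a b c d e f g : Fin 3, let w : Fin 3 → ℕ := ![0, 1, 5]
    w a + w b + w c + w d + w e + w f + w g = 18 → (a.val * b.val * c.val * d.val * e.val * f.val * g.val = 0) →
    (w a + (w b + (w c + w d)) = 12 ∨ w a + (w b + (w d + w e)) = 12 ∨ w a + (w b + (w e + w f)) = 12 ∨
     w a + (w b + (w f + w g)) = 12 ∨ w b + (w c + (w d + w e)) = 12 ∨ w b + (w c + (w e + w f)) = 12 ∨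
     w b + (w c + (w f + w g)) = 12 ∨ w c + (w d + (w e + w f)) = 12 ∨ w c + (w d + (w f + w g)) = 12 ∨
     w d + (w e + (w f + w g)) = 12) := by
  decide +kernel

def t7 (a : Fin 7) : Fin 3 := if a = 0 then 0 else if a.val ≤ 3 then 1 else 2

lemma b7 : Blocked 7 := by
  refine ⟨F7, fun S hS => (Finset.mem_powersetCard.1 (Finset.mem_filter.1 hS).1).2,
    by decide +kernel, fun v hv => ?_⟩
  have hw : ∀ a, (![0, 1, 5] : Fin 3 → ℕ) (t7 a) = w7 a := by decide
  have hs : ∑ i, w7 (v i) = 18 := by rw [Equiv.sum_comp v w7]; decide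
  have hp : ∏ i, (t7 (v i)).val = 0 := by rw [Equiv.prod_comp v fun a => (t7 a).val]; decide
  rw [Fin.sum_univ_seven] at hs
  rw [Fin.prod_univ_seven] at hp
  have k := key7 (t7 (v 0)) (t7 (v 1)) (t7 (v 2)) (t7 (v 3)) (t7 (v 4)) (t7 (v 5)) (t7 (v 6))
  simp only [hw] at k
  have fin : ∀ (i j : ℕ) (hij : i + 1 < j) (hj : j + 1 < 7), w7 (v ⟨i, by omega⟩) +
      (w7 (v ⟨i + 1, by omega⟩) + (w7 (v ⟨j, by omega⟩) + w7 (v ⟨j + 1, hj⟩))) ≠ 12 := by
    intro i j hij hj h
    have m := mem4 v (a := ⟨i, by omega⟩) (b := ⟨i + 1, by omega⟩) (c := ⟨j, by omega⟩)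
      (d := ⟨j + 1, hj⟩) (by simp) hij (by simp)
    exact hv i j hij hj (Finset.mem_filter.2 ⟨Finset.mem_powersetCard.2 ⟨Finset.subset_univ _, m.1⟩,
      (m.2 w7).trans h⟩)
  rcases k hs hp with h | h | h | h | h | h | h | h | h | h
  · exact fin 0 2 (by omega) (by omega) h
  · exact fin 0 3 (by omega) (by omega) h
  · exact fin 0 4 (by omega) (by omega) h
  · exact fin 0 5 (by omega) (by omega) h
  · exact fin 1 3 (by omega) (by omega) h
  · exact fin 1 4 (by omega) (by omega) h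
  · exact fin 1 5 (by omega) (by omega) h
  · exact fin 2 4 (by omega) (by omega) h
  · exact fin 2 5 (by omega) (by omega) h
  · exact fin 3 5 (by omega) (by omega) h

lemma b6 : Blocked 6 := by
  refine ⟨F6, fun S hS => (Finset.mem_powersetCard.1 (Finset.mem_filter.1 hS).1).2,
    by decide +kernel, fun v hv => ?_⟩
  have fin : ∀ (i j : ℕ) (hij : i + 1 < j) (hj : j + 1 < 6), (v.symm 0).val = i ∨ (v.symm 0).val = i + 1 ∨
      (v.symm 0).val = j ∨ (v.symm 0).val = j + 1 := by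
    intro i j hij hj
    have m := mem4 v (a := ⟨i, by omega⟩) (b := ⟨i + 1, by omega⟩) (c := ⟨j, by omega⟩)
      (d := ⟨j + 1, hj⟩) (by simp) hij (by simp)
    by_contra hc
    refine hv i j hij hj (Finset.mem_filter.2 ⟨Finset.mem_powersetCard.2 ⟨Finset.subset_univ _, m.1⟩,
      fun h => hc ?_⟩)
    simp only [Finset.mem_insert, Finset.mem_singleton, ← Equiv.symm_apply_eq, Fin.ext_iff] at h
    exact h
  have h1 := fin 0 2 (by omega) (by omega)
  have h2 := fin 2 4 (by omega) (by omega)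
  have h3 := fin 0 4 (by omega) (by omega)
  omega

theorem result : Blocked 6 ∧ Blocked 7 := ⟨b6, b7⟩

end Pool.Agent.Results.MP_716318_co.Small
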